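import Pool.Agent.X144.An.Ring
import Pool.Agent.X144.Mw.Pc

/-!
# Nested loops in an annulus: lower bound
-/

set_option autoImplicit false

namespace Pool.Agent.X144.An

open Pool.Agent.X144.Cp
open Pool.Agent.H122R3.SX (Adj)

/-- the annulus `r < max(|x|, |y|) ≤ R` -/
def Ann (r R : ℕ) : Set (ℤ × ℤ) := {p | (r : ℤ) < max |p.1| |p.2| ∧ max |p.1| |p.2| ≤ R}

/-- the `k`-tuples of disjoint polygons in `A` which surround the origin, with `2 n_1, ..., 2 n_k`
vertices, with starting points and orientations -/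
def Tup (k : ℕ) (n : Fin k → ℕ) (A : Set (ℤ × ℤ)) : Set ((i : Fin k) → ZMod (2 * n i) → ℤ × ℤ) :=
  {F | (∀ i, F i ∈ Sur (2 * n i) A) ∧ ∀ i j, i ≠ j → ∀ s t, F i s ≠ F j t}

/-- the weight of the `k`-tuples -/
noncomputable def Zk (μ : ℝ) (k r R : ℕ) : ℝ :=
  ∑ n ∈ Fintype.piFinset (fun _ : Fin k => Finset.Icc 2 ((2 * R + 1) ^ 2)),
    ((Tup k n (Ann r R)).ncard : ℝ) / ∏ i, (4 * (n i : ℝ) * μ ^ (2 * n i))

theorem Ann_finite (r R : ℕ) : (Ann r R).Finite := by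
  have hb : ((Set.Icc (-(R : ℤ)) (R : ℤ)) ×ˢ (Set.Icc (-(R : ℤ)) (R : ℤ))).Finite :=
    (Set.finite_Icc _ _).prod (Set.finite_Icc _ _)
  apply hb.subset
  intro p hp
  have h5 := hp.2
  rw [max_le_iff, abs_le, abs_le] at h5
  exact ⟨h5.1, h5.2⟩

theorem Tup_finite {k : ℕ} {n : Fin k → ℕ} (hn : ∀ i, 1 ≤ n i) {A : Set (ℤ × ℤ)} (hA : A.Finite) :
    (Tup k n A).Finite := by
  have hne : ∀ i, NeZero (2 * n i) := fun i => ⟨by have := hn i; omega⟩
  have h1 : (Set.pi Set.univ (fun i : Fin k => Sur (2 * n i) A)).Finite :=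
    Set.Finite.pi (fun i => Sur_finite hA)
  apply h1.subset
  intro F hF i _
  exact hF.1 i

/-- disjoint pieces give tuples -/
theorem Tup_ge {k : ℕ} {n : Fin k → ℕ} (hn : ∀ i, 1 ≤ n i) {A : Set (ℤ × ℤ)} (hA : A.Finite)
    {D : Fin k → Set (ℤ × ℤ)} (hD : ∀ i, D i ⊆ A) (hdis : ∀ i j, i ≠ j → Disjoint (D i) (D j)) :
    ∏ i, (Sur (2 * n i) (D i)).ncard ≤ (Tup k n A).ncard := by
  have hne : ∀ i, NeZero (2 * n i) := fun i => ⟨by have := hn i; omega⟩
  have hfin : Finite (Tup k n A) := (Tup_finite hn hA).to_subtype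
  have e1 : ∀ i, (Sur (2 * n i) (D i)).ncard = Nat.card (Sur (2 * n i) (D i)) :=
    fun i => (Nat.card_coe_set_eq _).symm
  rw [Finset.prod_congr rfl (fun i _ => e1 i), ← Nat.card_pi, ← Nat.card_coe_set_eq]
  refine Nat.card_le_card_of_injective (fun W : ((i : Fin k) → Sur (2 * n i) (D i)) =>
    (⟨fun i => (W i).1, ?_, ?_⟩ : Tup k n A)) ?_
  · intro i
    obtain ⟨h1, h2, h3, h4⟩ := (W i).2
    exact ⟨h1, h2, fun t => hD i (h3 t), h4⟩
  · intro i j hij s t heq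
    have h1 := (W i).2.2.2.1 s
    have h2 := (W j).2.2.2.1 t
    have heq' : (W i).1 s = (W j).1 t := heq
    rw [heq'] at h1
    exact Set.disjoint_left.1 (hdis i j hij) h1 h2
  · intro W W' hW
    have h1 := congrArg Subtype.val hW
    funext i
    exact Subtype.ext (congrFun h1 i)

/-- the length of a loop in a box -/
theorem len_le {n R : ℕ} (hn : 1 ≤ n) {A : Set (ℤ × ℤ)}
    (hA : ∀ p ∈ A, max |p.1| |p.2| ≤ (R : ℤ)) (h : 0 < (Sur n A).ncard) : n ≤ (2 * R + 1) ^ 2 := by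
  classical
  have hne : NeZero n := ⟨by omega⟩
  obtain ⟨f, hf⟩ := Set.nonempty_of_ncard_ne_zero h.ne'
  have h1 : Fintype.card (ZMod n) ≤ ((Finset.Icc (-(R : ℤ)) R) ×ˢ (Finset.Icc (-(R : ℤ)) R)).card := by
    rw [← Finset.card_univ]
    apply Finset.card_le_card_of_injOn f
    · intro i _
      have h5 := hA _ (hf.2.2.1 i)
      rw [max_le_iff, abs_le, abs_le] at h5
      rw [Finset.coe_product, Finset.coe_Icc]
      exact ⟨h5.1, h5.2⟩
    · exact hf.1.injOn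
  rw [ZMod.card, Finset.card_product, Int.card_Icc] at h1
  have e : ((R : ℤ) + 1 - -(R : ℤ)).toNat = 2 * R + 1 := by omega
  rw [e] at h1
  calc n ≤ (2 * R + 1) * (2 * R + 1) := h1
    _ = _ := by ring

theorem Zk_term {μ : ℝ} (hμ : 0 < μ) {k r R : ℕ} {n : Fin k → ℕ} (hn : ∀ i, 2 ≤ n i)
    (hn' : ∀ i, n i ≤ (2 * R + 1) ^ 2) :
    ((Tup k n (Ann r R)).ncard : ℝ) / ∏ i, (4 * (n i : ℝ) * μ ^ (2 * n i)) ≤ Zk μ k r R := by
  unfold Zk
  apply Finset.single_le_sum (f := fun n : Fin k → ℕ =>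
    ((Tup k n (Ann r R)).ncard : ℝ) / ∏ i, (4 * (n i : ℝ) * μ ^ (2 * n i)))
  · intro n _
    positivity
  · rw [Fintype.mem_piFinset]
    intro i
    rw [Finset.mem_Icc]
    exact ⟨hn i, hn' i⟩

/-- **Lower bound.** -/
theorem lower_ann (k : ℕ) {η : ℝ} (hη : 0 < η) : ∃ K : ℝ, 0 < K ∧ ∃ r0 : ℕ, ∀ r R : ℕ, r0 ≤ r →
    (1 + η) * r ≤ R → Real.exp (-(K * Real.log r ^ 6)) ≤ Zk H981.mu k r R := by
  obtain ⟨K, hK, hHP⟩ := Mw.HP_large
  have hmu1 : 1 ≤ H981.mu := by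
    rw [← mu_eq]
    exact H122R3.SY.one_le_mu
  have hmu := H981.mu_pos
  have hlmu : 0 ≤ Real.log H981.mu := Real.log_nonneg hmu1
  obtain ⟨m0, hm0⟩ : ∃ m0 : ℕ, m0 = ⌈(2 * k + 2) / η⌉₊ + 2 := ⟨_, rfl⟩
  have hm2 : 2 ≤ m0 := by omega
  have hmη : (2 * (k : ℝ) + 2) ≤ η / 2 * (2 * m0 - 1) := by
    have h1 : (2 * (k : ℝ) + 2) / η ≤ m0 := by
      rw [hm0]
      push_cast
      have := Nat.le_ceil ((2 * (k : ℝ) + 2) / η)
      linarith
    rw [div_le_iff₀ hη] at h1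
    have h2 : (2 : ℝ) ≤ m0 := by exact_mod_cast hm2
    have h3 : (2 * (k : ℝ) + 2) / η + 2 ≤ m0 := by
      rw [hm0]
      push_cast
      have := Nat.le_ceil ((2 * (k : ℝ) + 2) / η)
      linarith
    have h4 : (2 * (k : ℝ) + 2) + 2 * η ≤ η * m0 := by
      have := mul_le_mul_of_nonneg_left h3 hη.le
      rw [mul_add, mul_div_cancel₀ _ hη.ne'] at this
      linarith
    nlinarith
  obtain ⟨C, hC⟩ : ∃ C : ℕ, C = 3 * (m0 + k) + 2 := ⟨_, rfl⟩
  obtain ⟨B, hB⟩ : ∃ B : ℝ, B = 8 * (m0 + k) * (K + 6 + Real.log H981.mu) +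
    (Real.log (4 * (2 * C + 1) ^ 2) + 2) := ⟨_, rfl⟩
  have hlC : 0 ≤ Real.log (4 * (2 * (C : ℝ) + 1) ^ 2) := by
    apply Real.log_nonneg
    have : (0 : ℝ) ≤ C := Nat.cast_nonneg _
    nlinarith
  have hB0 : 0 ≤ B := by rw [hB]; positivity
  refine ⟨k * B + 1, by positivity, max (2 * m0) (⌈2 * (3 * (m0 + k) + 1) / η⌉₊ + 3), ?_⟩
  intro r R hr hR
  have hr1 : 2 * m0 ≤ r := (le_max_left _ _).trans hr
  have hr2 : ⌈2 * (3 * ((m0 : ℝ) + k) + 1) / η⌉₊ + 3 ≤ r := (le_max_right _ _).trans hr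
  have hr3 : 3 ≤ r := by omega
  have hrη : 3 * ((m0 : ℝ) + k) + 1 ≤ η / 2 * r := by
    have h1 : 2 * (3 * ((m0 : ℝ) + k) + 1) / η ≤ r := by
      have h2 := Nat.le_ceil (2 * (3 * ((m0 : ℝ) + k) + 1) / η)
      have h3 : ((⌈2 * (3 * ((m0 : ℝ) + k) + 1) / η⌉₊ : ℕ) : ℝ) ≤ r := by
        exact_mod_cast (by omega : ⌈2 * (3 * ((m0 : ℝ) + k) + 1) / η⌉₊ ≤ r)
      linarith
    rw [div_le_iff₀ hη] at h1
    linarith
  obtain ⟨L, hL⟩ : ∃ L : ℕ, L = r / (2 * m0 - 1) + 1 := ⟨_, rfl⟩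
  have hd : 0 < 2 * m0 - 1 := by omega
  have hdm := Nat.div_add_mod r (2 * m0 - 1)
  have hmod := Nat.mod_lt r hd
  have hL1 : r < (2 * m0 - 1) * L := by
    rw [hL, mul_add, mul_one]
    omega
  have hL2 : (2 * m0 - 1) * (L - 1) ≤ r := by
    rw [hL, Nat.add_sub_cancel]
    omega
  have hLge : 2 ≤ L := by
    rw [hL]
    have : 1 ≤ r / (2 * m0 - 1) := (Nat.one_le_div_iff hd).2 (by omega)
    omega
  have hLr : L ≤ r := by
    rw [hL]
    have h1 : r / (2 * m0 - 1) ≤ r / 3 := Nat.div_le_div_left (by omega) (by norm_num)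
    omega
  have hL1' : (r : ℤ) < (2 * m0 - 1) * L := by
    have := hL1
    zify [show 1 ≤ 2 * m0 by omega] at this
    exact this
  have hL2' : ((2 * (m0 : ℝ) - 1) * (L - 1)) ≤ r := by
    have := hL2
    zify [show 1 ≤ 2 * m0 by omega, show 1 ≤ L by omega] at this
    exact_mod_cast this
  -- the rings lie in the annulus
  have hin : ∀ i : Fin k, RR (m0 + i) L ⊆ Ann r R := by
    intro i p hp
    have hi := i.2
    obtain ⟨h1, h2⟩ := RR_norm (show 1 ≤ m0 + (i : ℕ) by omega) hp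
    push_cast at h1 h2
    have hi0 : (0 : ℤ) ≤ (i : ℕ) := Nat.cast_nonneg _
    have hL0 : (0 : ℤ) ≤ L := Nat.cast_nonneg _
    have hm0' : (0 : ℤ) ≤ m0 := Nat.cast_nonneg _
    constructor
    · nlinarith
    · have hik : ((i : ℕ) : ℝ) ≤ k := by exact_mod_cast hi.le
      have h3 : (2 * (L : ℝ) + 1) * (m0 + (i : ℕ)) + L ≤ R := by
        refine le_trans ?_ hR
        have hk0 : (0 : ℝ) ≤ k := Nat.cast_nonneg _
        have hmr : (2 : ℝ) ≤ m0 := by exact_mod_cast hm2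
        have hLr1 : (2 : ℝ) ≤ L := by exact_mod_cast hLge
        have h4 : (2 * (L : ℝ) + 1) * (m0 + (i : ℕ)) ≤ (2 * L + 1) * (m0 + k) :=
          mul_le_mul_of_nonneg_left (by linarith) (by positivity)
        have h5 : (2 * (k : ℝ) + 2) * (L - 1) ≤ η / 2 * r := by
          calc (2 * (k : ℝ) + 2) * (L - 1) ≤ (η / 2 * (2 * m0 - 1)) * (L - 1) :=
                mul_le_mul_of_nonneg_right hmη (by linarith)
            _ = η / 2 * ((2 * m0 - 1) * (L - 1)) := by ring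
            _ ≤ _ := mul_le_mul_of_nonneg_left hL2' (by positivity)
        have h6 : (2 * (L : ℝ) + 1) * (m0 + k) + L =
          (2 * m0 - 1) * (L - 1) + (2 * k + 2) * (L - 1) + (3 * (m0 + k) + 1) := by ring
        linarith
      have h7 : (2 * (L : ℤ) + 1) * (m0 + (i : ℕ)) + L ≤ R := by exact_mod_cast h3
      exact h2.trans h7
  -- numbers
  have hrr : (3 : ℝ) ≤ r := by exact_mod_cast hr3
  obtain ⟨w, hw⟩ : ∃ w, w = Real.log (r : ℝ) := ⟨_, rfl⟩
  have hw1 : 1 ≤ w := by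
    rw [hw, Real.le_log_iff_exp_le (by linarith)]
    have := Real.exp_one_lt_d9
    linarith
  have hw6 : w ≤ w ^ 6 := le_self_pow₀ hw1 (by norm_num)
  have hw61 : 1 ≤ w ^ 6 := one_le_pow₀ hw1
  have hLlog : Real.log L ^ 6 ≤ w ^ 6 := by
    apply pow_le_pow_left₀ (Real.log_natCast_nonneg _)
    rw [hw]
    exact Real.log_le_log (by exact_mod_cast (by omega : 0 < L)) (by exact_mod_cast hLr)
  have hP1 := hHP L hLge
  have hwt : Real.exp (-((K + 6) * w ^ 6)) ≤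
      Real.exp (-(K * Real.log L ^ 6)) / ((2 * L + 1) ^ 2 : ℕ) := by
    have h1 : (((2 * L + 1) ^ 2 : ℕ) : ℝ) ≤ Real.exp (6 * w ^ 6) := by
      have h2 : (((2 * L + 1) ^ 2 : ℕ) : ℝ) ≤ (3 * r) ^ 2 := by
        push_cast
        apply pow_le_pow_left₀ (by positivity)
        have : (L : ℝ) ≤ r := by exact_mod_cast hLr
        linarith
      refine h2.trans ?_
      have h3 : (3 * (r : ℝ)) ^ 2 = Real.exp (2 * (Real.log 3 + w)) := by
        rw [hw, ← Real.log_mul (by norm_num) (by linarith), mul_comm (2 : ℝ), Real.exp_mul,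
          Real.exp_log (by linarith)]
        norm_cast
      rw [h3]
      apply Real.exp_le_exp.2
      have h4 : Real.log 3 ≤ 2 := by
        have := Real.log_le_sub_one_of_pos (show (0 : ℝ) < 3 by norm_num)
        linarith
      linarith
    rw [le_div_iff₀ (by positivity)]
    calc Real.exp (-((K + 6) * w ^ 6)) * (((2 * L + 1) ^ 2 : ℕ) : ℝ)
        ≤ Real.exp (-((K + 6) * w ^ 6)) * Real.exp (6 * w ^ 6) :=
          mul_le_mul_of_nonneg_left h1 (Real.exp_pos _).le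
      _ = Real.exp (-(K * w ^ 6)) := by rw [← Real.exp_add]; congr 1; ring
      _ ≤ _ := by
          apply Real.exp_le_exp.2
          have := mul_le_mul_of_nonneg_left hLlog hK
          linarith
  have hP2 := Mw.HP_mono hP1 hwt
  obtain ⟨x, hx⟩ : ∃ x, x = 1 / H981.mu := ⟨_, rfl⟩
  have hx0 : 0 < x := by rw [hx]; positivity
  have hxe : x = Real.exp (-Real.log H981.mu) := by
    rw [Real.exp_neg, Real.exp_log hmu, hx, one_div]
  rw [← hx] at hP2
  choose h hh1 hh2 using fun i : Fin k => ring_ge (show 1 ≤ m0 + (i : ℕ) by omega)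
    (show 1 ≤ L by omega) hx0 (Real.exp_pos _) hP2
  have hpos : ∀ i : Fin k, 0 < (Sur (2 * h i) (RR (m0 + i) L)).ncard := by
    intro i
    by_contra hcon
    have h0 : (Sur (2 * h i) (RR (m0 + i) L)).ncard = 0 := by omega
    have h1 := hh2 i
    rw [h0, Nat.cast_zero, zero_mul] at h1
    have : 0 < Real.exp (-((K + 6) * w ^ 6)) ^ (8 * (m0 + (i : ℕ))) * x ^ (8 * (m0 + (i : ℕ))) := by
      positivity
    linarith
  have hhR : ∀ i, h i ≤ (2 * R + 1) ^ 2 := by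
    intro i
    have h1 := len_le (R := R) (show 1 ≤ 2 * h i by have := hh1 i; omega)
      (fun p hp => (hin i hp).2) (hpos i)
    omega
  have hhC : ∀ i, h i ≤ (2 * (C * r) + 1) ^ 2 := by
    intro i
    have hi := i.2
    have h1 := len_le (R := C * r) (show 1 ≤ 2 * h i by have := hh1 i; omega)
      (A := RR (m0 + i) L) (fun p hp => by
        refine (RR_norm (show 1 ≤ m0 + (i : ℕ) by omega) hp).2.trans ?_
        have h2 : (2 * L + 1) * (m0 + (i : ℕ)) + L ≤ C * r := by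
          have h3 : (2 * L + 1) * (m0 + (i : ℕ)) ≤ (3 * r) * (m0 + k) :=
            Nat.mul_le_mul (by omega) (by omega)
          rw [hC]
          nlinarith
        exact_mod_cast h2) (hpos i)
    omega
  have hcard := Tup_ge (A := Ann r R) (fun i => (show 1 ≤ h i by have := hh1 i; omega))
    (Ann_finite r R) hin (fun i j hij => RR_disj (L := L) (by omega) (by omega) (by
      intro he
      exact hij (Fin.ext (by omega))))
  refine le_trans ?_ (Zk_term hmu hh1 hhR)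
  have hcard' : (∏ i, ((Sur (2 * h i) (RR (m0 + i) L)).ncard : ℝ)) ≤
      ((Tup k h (Ann r R)).ncard : ℝ) := by exact_mod_cast hcard
  have hden : 0 < ∏ i, (4 * (h i : ℝ) * H981.mu ^ (2 * h i)) := by
    apply Finset.prod_pos
    intro i _
    have : (2 : ℝ) ≤ h i := by exact_mod_cast hh1 i
    positivity
  refine le_trans ?_ (div_le_div_of_nonneg_right hcard' hden.le)
  rw [← Finset.prod_div_distrib]
  have hone : ∀ i : Fin k, Real.exp (-(B * w ^ 6)) ≤
      ((Sur (2 * h i) (RR (m0 + i) L)).ncard : ℝ) / (4 * (h i : ℝ) * H981.mu ^ (2 * h i)) := by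
    intro i
    have hi := i.2
    have h2 : (2 : ℝ) ≤ h i := by exact_mod_cast hh1 i
    have e1 : ((Sur (2 * h i) (RR (m0 + i) L)).ncard : ℝ) / (4 * (h i : ℝ) * H981.mu ^ (2 * h i)) =
        ((Sur (2 * h i) (RR (m0 + i) L)).ncard : ℝ) * x ^ (2 * h i) / (4 * (h i : ℝ)) := by
      have hxm : x ^ (2 * h i) * H981.mu ^ (2 * h i) = 1 := by
        rw [← mul_pow, hx, one_div, inv_mul_cancel₀ hmu.ne', one_pow]
      have h4h : (4 * (h i : ℝ)) ≠ 0 := by positivity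
      have hM : H981.mu ^ (2 * h i) ≠ 0 := by positivity
      rw [div_eq_div_iff (mul_ne_zero h4h hM) h4h]
      calc ((Sur (2 * h i) (RR (m0 + i) L)).ncard : ℝ) * (4 * (h i : ℝ))
          = ((Sur (2 * h i) (RR (m0 + i) L)).ncard : ℝ) * (4 * (h i : ℝ)) *
            (x ^ (2 * h i) * H981.mu ^ (2 * h i)) := by rw [hxm, mul_one]
        _ = _ := by ring
    rw [e1]
    have hik : (m0 : ℝ) + ((i : ℕ) : ℝ) ≤ m0 + k := by
      have : ((i : ℕ) : ℝ) ≤ k := by exact_mod_cast hi.le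
      linarith
    have h3 : Real.exp (-(8 * (m0 + k) * (K + 6 + Real.log H981.mu) * w ^ 6)) ≤
        ((Sur (2 * h i) (RR (m0 + i) L)).ncard : ℝ) * x ^ (2 * h i) := by
      refine le_trans ?_ (hh2 i)
      rw [hxe, ← Real.exp_nat_mul, ← Real.exp_nat_mul, ← Real.exp_add]
      apply Real.exp_le_exp.2
      push_cast
      have h4 : Real.log H981.mu ≤ Real.log H981.mu * w ^ 6 := by nlinarith
      have h5 : 8 * ((m0 : ℝ) + ((i : ℕ) : ℝ)) * ((K + 6) * w ^ 6 + Real.log H981.mu) ≤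
          8 * (m0 + k) * ((K + 6) * w ^ 6 + Real.log H981.mu * w ^ 6) := by
        apply mul_le_mul (by linarith) (by linarith) (by positivity) (by positivity)
      linarith
    have h6 : 4 * (h i : ℝ) ≤ Real.exp ((Real.log (4 * (2 * C + 1) ^ 2) + 2) * w ^ 6) := by
      have h7 : (h i : ℝ) ≤ ((2 * C + 1) ^ 2) * r ^ 2 := by
        have h8 : (h i : ℝ) ≤ (2 * (C * r) + 1) ^ 2 := by exact_mod_cast hhC i
        refine h8.trans ?_
        rw [← mul_pow]
        apply pow_le_pow_left₀ (by positivity)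
        linarith
      have h9 : 4 * (h i : ℝ) ≤ (4 * (2 * (C : ℝ) + 1) ^ 2) * r ^ 2 := by linarith
      refine h9.trans ?_
      have hCp : (0 : ℝ) < 4 * (2 * (C : ℝ) + 1) ^ 2 := by positivity
      have h10 : (4 * (2 * (C : ℝ) + 1) ^ 2) * r ^ 2 =
          Real.exp (Real.log (4 * (2 * (C : ℝ) + 1) ^ 2) + 2 * w) := by
        rw [Real.exp_add, Real.exp_log hCp, hw, mul_comm (2 : ℝ) (Real.log _), Real.exp_mul,
          Real.exp_log (by linarith)]
        norm_cast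
      rw [h10]
      apply Real.exp_le_exp.2
      have h11 : Real.log (4 * (2 * (C : ℝ) + 1) ^ 2) ≤
          Real.log (4 * (2 * (C : ℝ) + 1) ^ 2) * w ^ 6 := by nlinarith
      linarith
    rw [le_div_iff₀ (by linarith)]
    calc Real.exp (-(B * w ^ 6)) * (4 * (h i : ℝ))
        ≤ Real.exp (-(B * w ^ 6)) * Real.exp ((Real.log (4 * (2 * C + 1) ^ 2) + 2) * w ^ 6) :=
          mul_le_mul_of_nonneg_left h6 (Real.exp_pos _).le
      _ = Real.exp (-(8 * (m0 + k) * (K + 6 + Real.log H981.mu) * w ^ 6)) := by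
          rw [← Real.exp_add, hB]
          congr 1
          ring
      _ ≤ _ := h3
  rw [← hw]
  calc Real.exp (-((k * B + 1) * w ^ 6)) ≤ Real.exp (-(B * w ^ 6)) ^ k := by
        rw [← Real.exp_nat_mul]
        apply Real.exp_le_exp.2
        linarith
    _ = ∏ _i : Fin k, Real.exp (-(B * w ^ 6)) := by
        rw [Finset.prod_const, Finset.card_univ, Fintype.card_fin]
    _ ≤ _ := Finset.prod_le_prod (fun _ _ => (Real.exp_pos _).le) (fun i _ => hone i)

end Pool.Agent.X144.An
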