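import Pool.Agent.X144.Cp.Path
import Pool.Agent.X144.Cp.Fn
import Pool.Agent.Y981.L2.Area1

/-!
# Loops made of two paths
-/

set_option autoImplicit false

namespace Pool.Agent.X144.An

open Pool.Agent.X144.Cp
open Pool.Agent.H122R3.SX (Adj)
open Pool.Agent.Y981.L2 (Above Encl)

/-- the polygons with `m` vertices in `A` which surround the unit cell at the origin, with a starting
point and an orientation -/
def Sur (m : ℕ) (A : Set (ℤ × ℤ)) : Set (ZMod m → ℤ × ℤ) :=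
  {f | Function.Injective f ∧ (∀ i : ZMod m, |(f (i + 1)).1 - (f i).1| + |(f (i + 1)).2 - (f i).2| = 1) ∧
    (∀ i, f i ∈ A) ∧ Encl m f (0, 0)}

/-- a list as a closed curve -/
def toF (l : List (ℤ × ℤ)) (m : ℕ) : ZMod m → ℤ × ℤ := fun i => l.getD i.val (0, 0)

theorem val_succ {m : ℕ} (hm : 2 ≤ m) (i : ZMod m) :
    (i + 1).val = if i.val + 1 < m then i.val + 1 else 0 := by
  have : NeZero m := ⟨by omega⟩
  have hi := i.val_lt
  rw [ZMod.val_add, ZMod.val_one'' (by omega)]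
  split_ifs with h
  · exact Nat.mod_eq_of_lt h
  · have : i.val + 1 = m := by omega
    rw [this, Nat.mod_self]

theorem adj_getD {D : Set (ℤ × ℤ)} {a b : ℤ × ℤ} {j : ℕ} {l : List (ℤ × ℤ)} (h : l ∈ TJ D a b j)
    {k : ℕ} (hk : k < j) : Adj (l.getD k (0, 0)) (l.getD (k + 1) (0, 0)) := by
  obtain ⟨⟨h1, h2, h3, h4, h5⟩, h6⟩ := h
  rw [List.getD_eq_getElem _ _ (by omega : k < l.length),
    List.getD_eq_getElem _ _ (by omega : k + 1 < l.length)]
  rw [List.isChain_iff_getElem] at h4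
  exact h4 k (by omega)

theorem getD_inj {D : Set (ℤ × ℤ)} {a b : ℤ × ℤ} {j : ℕ} {l : List (ℤ × ℤ)} (h : l ∈ TJ D a b j)
    {k k' : ℕ} (hk : k ≤ j) (hk' : k' ≤ j) (he : l.getD k (0, 0) = l.getD k' (0, 0)) : k = k' := by
  obtain ⟨⟨h1, h2, h3, h4, h5⟩, h6⟩ := h
  rw [List.getD_eq_getElem _ _ (by omega : k < l.length),
    List.getD_eq_getElem _ _ (by omega : k' < l.length)] at he
  exact (h3.getElem_inj_iff).1 he

theorem toF_inj {D : Set (ℤ × ℤ)} {a b : ℤ × ℤ} {j : ℕ} {l : List (ℤ × ℤ)} (h : l ∈ TJ D a b j) :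
    Function.Injective (toF l (j + 1)) := by
  intro i i' he
  have h1 := i.val_lt
  have h2 := i'.val_lt
  exact ZMod.val_injective _ (getD_inj h (by omega) (by omega) he)

theorem toF_step {D : Set (ℤ × ℤ)} {a b : ℤ × ℤ} {j : ℕ} {l : List (ℤ × ℤ)} (h : l ∈ TJ D a b j)
    (hj : 1 ≤ j) (hab : Adj b a) (i : ZMod (j + 1)) :
    |(toF l (j + 1) (i + 1)).1 - (toF l (j + 1) i).1| +
      |(toF l (j + 1) (i + 1)).2 - (toF l (j + 1) i).2| = 1 := by
  unfold toF
  have h1 := i.val_lt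
  rw [val_succ (by omega)]
  split_ifs with h2
  · have h3 := adj_getD h (show i.val < j by omega)
    unfold Adj at h3
    rw [abs_sub_comm, abs_sub_comm (l.getD (i.val + 1) (0, 0)).2]
    exact h3
  · have h3 : i.val = j := by omega
    rw [h3, getD_zero h, getD_last h]
    unfold Adj at hab
    rw [abs_sub_comm, abs_sub_comm a.2]
    exact hab

/-- parity of the number of the crossings of the column between `0` and `1` -/
theorem cross_parity (u : ℕ → ℤ) (j : ℕ) (h : ∀ k < j, |u (k + 1) - u k| ≤ 1) :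
    (Odd ((Finset.range j).filter
      (fun k => (u k = 0 ∧ u (k + 1) = 1) ∨ (u k = 1 ∧ u (k + 1) = 0))).card ↔
      ¬ ((u 0 ≤ 0) ↔ (u j ≤ 0))) := by
  induction j with
  | zero => simp
  | succ j ih =>
    have ih' := ih (fun k hk => h k (by omega))
    have h1 := h j (by omega)
    rw [abs_le] at h1
    rw [Finset.range_add_one, Finset.filter_insert]
    by_cases hc : (u j = 0 ∧ u (j + 1) = 1) ∨ (u j = 1 ∧ u (j + 1) = 0)
    · rw [if_pos hc, Finset.card_insert_of_notMem (by simp), Nat.odd_add_one, ih']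
      have : ¬ ((u j ≤ 0) ↔ (u (j + 1) ≤ 0)) := by
        rcases hc with ⟨h2, h3⟩ | ⟨h2, h3⟩ <;> rw [h2, h3] <;> decide
      tauto
    · rw [if_neg hc, ih']
      have : (u j ≤ 0) ↔ (u (j + 1) ≤ 0) := by
        constructor
        · intro h2
          by_contra h3
          exact hc (Or.inl ⟨by omega, by omega⟩)
        · intro h2
          by_contra h3
          exact hc (Or.inr ⟨by omega, by omega⟩)
      tauto

theorem getD_left {l₁ l₂ : List (ℤ × ℤ)} {k : ℕ} (h : k < l₁.length) :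
    (l₁ ++ l₂).getD k (0, 0) = l₁.getD k (0, 0) := List.getD_append _ _ _ _ h

theorem getD_right {l₁ l₂ : List (ℤ × ℤ)} {k : ℕ} (h : l₁.length ≤ k) :
    (l₁ ++ l₂).getD k (0, 0) = l₂.getD (k - l₁.length) (0, 0) := List.getD_append_right _ _ _ _ h

/-- **Two paths make a loop around the origin.** -/
theorem loop_mem {D₁ D₂ : Set (ℤ × ℤ)} {a₁ b₁ a₂ b₂ : ℤ × ℤ} {j₁ j₂ : ℕ} (hD : Disjoint D₁ D₂)
    (h12 : Adj b₁ a₂) (h21 : Adj b₂ a₁) (hx12 : b₁.1 = a₂.1) (ha1 : a₁.1 ≤ 0) (hb1 : 1 ≤ b₁.1)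
    (hc1 : ∀ p ∈ D₁, (p.1 = 0 ∨ p.1 = 1) → 0 < p.2) (hc2 : ∀ p ∈ D₂, (p.1 = 0 ∨ p.1 = 1) → p.2 ≤ 0)
    {l₁ l₂ : List (ℤ × ℤ)} (h₁ : l₁ ∈ TJ D₁ a₁ b₁ j₁) (h₂ : l₂ ∈ TJ D₂ a₂ b₂ j₂) :
    toF (l₁ ++ l₂) (j₁ + j₂ + 1 + 1) ∈ Sur (j₁ + j₂ + 1 + 1) (D₁ ∪ D₂) := by
  classical
  have hcat := cat_mem hD h12 h₁ h₂
  refine ⟨toF_inj hcat, toF_step hcat (by omega) h21, ?_, ?_⟩
  · intro i
    have := i.val_lt
    exact getD_mem hcat (by omega)
  · unfold Encl
    have e1 : l₁.length = j₁ + 1 := h₁.2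
    have hcard : Nat.card {k : ZMod (j₁ + j₂ + 1 + 1) //
        Above (j₁ + j₂ + 1 + 1) (toF (l₁ ++ l₂) (j₁ + j₂ + 1 + 1)) 0 0 k} =
        ((Finset.range j₁).filter (fun k => ((l₁.getD k (0, 0)).1 = 0 ∧
          (l₁.getD (k + 1) (0, 0)).1 = 1) ∨ ((l₁.getD k (0, 0)).1 = 1 ∧
          (l₁.getD (k + 1) (0, 0)).1 = 0))).card := by
      rw [Nat.card_eq_fintype_card, Fintype.card_subtype]
      apply Finset.card_bij (fun (k : ZMod (j₁ + j₂ + 1 + 1)) _ => k.val)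
      · intro k hk
        rw [Finset.mem_filter] at hk
        obtain ⟨-, hk1, hk2⟩ := hk
        have hkl := k.val_lt
        have hval := val_succ (show 2 ≤ j₁ + j₂ + 1 + 1 by omega) k
        unfold toF at hk1 hk2
        rw [hval] at hk1
        rcases lt_trichotomy k.val j₁ with h3 | h3 | h3
        · rw [if_pos (by omega), getD_left (by omega), getD_left (by omega)] at hk1
          rw [Finset.mem_filter, Finset.mem_range]
          refine ⟨h3, ?_⟩
          rcases hk1 with ⟨h4, h5⟩ | ⟨h4, h5⟩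
          · exact Or.inl ⟨h4, by rw [h5]; rfl⟩
          · exact Or.inr ⟨by rw [h4]; rfl, h5⟩
        · exfalso
          rw [if_pos (by omega), h3, getD_left (by omega), getD_right (by omega), e1, Nat.sub_self,
            getD_last h₁, getD_zero h₂] at hk1
          omega
        · exfalso
          have h4 : (l₁ ++ l₂).getD k.val (0, 0) ∈ D₂ := by
            rw [getD_right (by omega), e1]
            exact getD_mem h₂ (by omega)
          have h5 := hc2 _ h4 (by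
            rcases hk1 with ⟨h6, -⟩ | ⟨h6, -⟩
            · exact Or.inl h6
            · exact Or.inr (by rw [h6]; rfl))
          omega
      · intro k _ k' _ h
        exact ZMod.val_injective _ h
      · intro k hk
        rw [Finset.mem_filter, Finset.mem_range] at hk
        obtain ⟨hk1, hk2⟩ := hk
        have hv : ((k : ℕ) : ZMod (j₁ + j₂ + 1 + 1)).val = k :=
          ZMod.val_natCast_of_lt (by omega)
        refine ⟨(k : ZMod (j₁ + j₂ + 1 + 1)), ?_, hv⟩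
        rw [Finset.mem_filter]
        refine ⟨Finset.mem_univ _, ?_, ?_⟩
        · unfold toF
          rw [val_succ (by omega), hv, if_pos (by omega), getD_left (by omega),
            getD_left (by omega)]
          rcases hk2 with ⟨h4, h5⟩ | ⟨h4, h5⟩
          · exact Or.inl ⟨h4, by rw [h5]; rfl⟩
          · exact Or.inr ⟨by rw [h4]; rfl, h5⟩
        · unfold toF
          rw [hv, getD_left (by omega)]
          apply hc1 _ (getD_mem h₁ (by omega))
          rcases hk2 with ⟨h4, -⟩ | ⟨h4, -⟩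
          · exact Or.inl h4
          · exact Or.inr h4
    rw [hcard, cross_parity (fun k => (l₁.getD k (0, 0)).1) j₁ (by
      intro k hk
      have h3 := adj_getD h₁ hk
      unfold Adj at h3
      rw [abs_sub_comm]
      have := abs_nonneg ((l₁.getD k (0, 0)).2 - (l₁.getD (k + 1) (0, 0)).2)
      omega)]
    rw [getD_zero h₁, getD_last h₁]
    intro h
    have := h.1 ha1
    omega

/-- the number of the loops -/
theorem loops_ge {D₁ D₂ A : Set (ℤ × ℤ)} {a₁ b₁ a₂ b₂ : ℤ × ℤ} {j₁ j₂ : ℕ} (hD : Disjoint D₁ D₂)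
    (h12 : Adj b₁ a₂) (h21 : Adj b₂ a₁) (hx12 : b₁.1 = a₂.1) (ha1 : a₁.1 ≤ 0) (hb1 : 1 ≤ b₁.1)
    (hc1 : ∀ p ∈ D₁, (p.1 = 0 ∨ p.1 = 1) → 0 < p.2) (hc2 : ∀ p ∈ D₂, (p.1 = 0 ∨ p.1 = 1) → p.2 ≤ 0)
    (hA : D₁ ∪ D₂ ⊆ A) (hfin : (Sur (j₁ + j₂ + 1 + 1) A).Finite) :
    nJ D₁ a₁ b₁ j₁ * nJ D₂ a₂ b₂ j₂ ≤ (Sur (j₁ + j₂ + 1 + 1) A).ncard := by
  unfold nJ
  rw [← Set.ncard_prod]
  apply Set.ncard_le_ncard_of_injOn
    (fun p : List (ℤ × ℤ) × List (ℤ × ℤ) => toF (p.1 ++ p.2) (j₁ + j₂ + 1 + 1)) _ _ hfin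
  · rintro ⟨l₁, l₂⟩ ⟨h₁, h₂⟩
    obtain ⟨k1, k2, k3, k4⟩ := loop_mem hD h12 h21 hx12 ha1 hb1 hc1 hc2 h₁ h₂
    exact ⟨k1, k2, fun i => hA (k3 i), k4⟩
  · rintro ⟨l₁, l₂⟩ ⟨h₁, h₂⟩ ⟨l₁', l₂'⟩ ⟨h₁', h₂'⟩ h
    simp only at h h₁ h₂ h₁' h₂'
    have e1 : l₁.length = j₁ + 1 := h₁.2
    have e1' : l₁'.length = j₁ + 1 := h₁'.2
    have e2 : l₂.length = j₂ + 1 := h₂.2
    have e2' : l₂'.length = j₂ + 1 := h₂'.2
    have key : l₁ ++ l₂ = l₁' ++ l₂' := by
      apply List.ext_getElem (by rw [List.length_append, List.length_append]; omega)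
      intro i hi hi'
      rw [List.length_append] at hi hi'
      have h3 := congrFun h ((i : ℕ) : ZMod (j₁ + j₂ + 1 + 1))
      unfold toF at h3
      rw [ZMod.val_natCast_of_lt (by omega)] at h3
      rwa [List.getD_eq_getElem _ _ (by rw [List.length_append]; omega),
        List.getD_eq_getElem _ _ (by rw [List.length_append]; omega)] at h3
    obtain ⟨e3, e4⟩ := List.append_inj key (by omega)
    exact Prod.ext e3 e4

end Pool.Agent.X144.An
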