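import Pool.Agent.X144.An.Lp

/-!
# Rings of boxes
-/

set_option autoImplicit false

namespace Pool.Agent.X144.An

open Pool.Agent.X144.Cp
open Pool.Agent.H122R3.SX (Adj)
open Pool.Agent.Y981.L2 (Above Encl)

/-- the upper half of the ring with the radius `m` -/
def bU (m t : ℕ) : ℤ × ℤ :=
  if (t : ℤ) ≤ m then (-(m : ℤ), (t : ℤ))
  else if (t : ℤ) ≤ 3 * m then (t - 2 * m, (m : ℤ)) else ((m : ℤ), 4 * m - t)

/-- the lower half of the ring with the radius `m` -/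
def bD (m t : ℕ) : ℤ × ℤ :=
  if (t : ℤ) ≤ m - 1 then ((m : ℤ), -1 - t)
  else if (t : ℤ) ≤ 3 * m - 1 then (2 * m - 1 - t, -(m : ℤ)) else (-(m : ℤ), t - 4 * m + 1)

theorem bU_inj {m : ℕ} (hm : 1 ≤ m) : Function.Injective (bU m) := by
  intro t t' h
  unfold bU at h
  split_ifs at h <;> simp only [Prod.mk.injEq] at h <;> omega

theorem bD_inj {m : ℕ} (hm : 1 ≤ m) : Function.Injective (bD m) := by
  intro t t' h
  unfold bD at h
  split_ifs at h <;> simp only [Prod.mk.injEq] at h <;> omega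

theorem isU_of {a b : ℤ} (h : (a = 1 ∧ b = 0) ∨ (a = -1 ∧ b = 0) ∨ (a = 0 ∧ b = 1) ∨
    (a = 0 ∧ b = -1)) : |a| + |b| = 1 := by
  rcases h with ⟨rfl, rfl⟩ | ⟨rfl, rfl⟩ | ⟨rfl, rfl⟩ | ⟨rfl, rfl⟩ <;> simp

theorem bU_dir {m : ℕ} (hm : 1 ≤ m) (t : ℕ) : IsU (dir (bU m) t) := by
  unfold IsU dir bU
  push_cast
  split_ifs <;> simp only <;> first | (exfalso; omega) | (apply isU_of; omega)

theorem bD_dir {m : ℕ} (hm : 1 ≤ m) (t : ℕ) : IsU (dir (bD m) t) := by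
  unfold IsU dir bD
  push_cast
  split_ifs <;> simp only <;> first | (exfalso; omega) | (apply isU_of; omega)

theorem bU_zero (m : ℕ) : bU m 0 = (-(m : ℤ), 0) := by
  unfold bU
  rw [if_pos (by push_cast; omega)]
  simp

theorem bU_last {m : ℕ} (hm : 1 ≤ m) : bU m (4 * m) = ((m : ℤ), 0) := by
  unfold bU
  rw [if_neg (by push_cast; omega), if_neg (by push_cast; omega)]
  push_cast
  exact Prod.ext rfl (by simp only; ring)

theorem bD_zero {m : ℕ} (hm : 1 ≤ m) : bD m 0 = ((m : ℤ), -1) := by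
  unfold bD
  rw [if_pos (by push_cast; omega)]
  simp

theorem bD_last {m : ℕ} (hm : 1 ≤ m) : bD m (4 * m - 2) = (-(m : ℤ), -1) := by
  unfold bD
  rw [if_neg (by push_cast [Nat.cast_sub (show 2 ≤ 4 * m by omega)]; omega)]
  split_ifs with h
  · push_cast [Nat.cast_sub (show 2 ≤ 4 * m by omega)] at h ⊢
    exact Prod.ext (by simp only; omega) (by simp only; omega)
  · push_cast [Nat.cast_sub (show 2 ≤ 4 * m by omega)]
    exact Prod.ext rfl (by simp only; ring)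

theorem bU_dir_zero {m : ℕ} (hm : 1 ≤ m) : dir (bU m) 0 = (0, 1) := by
  unfold dir
  rw [bU_zero]
  unfold bU
  rw [if_pos (by push_cast; omega)]
  simp

theorem bU_dir_last {m : ℕ} (hm : 1 ≤ m) : dir (bU m) (4 * m) = (0, -1) := by
  unfold dir
  rw [bU_last hm]
  unfold bU
  rw [if_neg (by push_cast; omega), if_neg (by push_cast; omega)]
  push_cast
  exact Prod.ext (by simp only; ring) (by simp only; ring)

theorem bD_two {m t : ℕ} (hm : 1 ≤ m) (ht : t ≤ 4 * m - 2) : (bD m t).2 ≤ -1 := by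
  unfold bD
  split_ifs <;> simp only <;> omega

theorem bD_dir_zero {m : ℕ} (hm : 1 ≤ m) : dir (bD m) 0 ≠ (0, 1) := by
  unfold dir
  rw [bD_zero hm]
  intro h
  have h1 := bD_two hm (show 0 + 1 ≤ 4 * m - 2 by omega)
  have h2 := congrArg Prod.snd h
  simp only at h2
  omega

theorem bD_dir_last {m : ℕ} (hm : 1 ≤ m) : dir (bD m) (4 * m - 2) = (0, 1) := by
  unfold dir
  rw [bD_last hm]
  unfold bD
  rw [if_neg (by push_cast [Nat.cast_sub (show 2 ≤ 4 * m by omega)]; omega),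
    if_neg (by push_cast [Nat.cast_sub (show 2 ≤ 4 * m by omega)]; omega)]
  push_cast [Nat.cast_sub (show 2 ≤ 4 * m by omega)]
  exact Prod.ext (by simp only; ring) (by simp only; ring)

/-- the upper half of the ring -/
def DU (m L : ℕ) : Set (ℤ × ℤ) := Un L (bU m) (4 * m)

/-- the lower half of the ring -/
def DD (m L : ℕ) : Set (ℤ × ℤ) := Un L (bD m) (4 * m - 2)

/-- the ring -/
def RR (m L : ℕ) : Set (ℤ × ℤ) := DU m L ∪ DD m L

theorem bU_two {m t : ℕ} (hm : 1 ≤ m) (ht : t ≤ 4 * m) : 0 ≤ (bU m t).2 := by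
  unfold bU
  split_ifs <;> simp only <;> omega

theorem bU_norm {m t : ℕ} (hm : 1 ≤ m) (ht : t ≤ 4 * m) :
    max |(bU m t).1| |(bU m t).2| = m := by
  have h1 : -(m : ℤ) ≤ (bU m t).1 ∧ (bU m t).1 ≤ m ∧ -(m : ℤ) ≤ (bU m t).2 ∧ (bU m t).2 ≤ m := by
    unfold bU
    split_ifs <;> simp only <;> omega
  have h2 : (bU m t).1 = m ∨ (bU m t).1 = -m ∨ (bU m t).2 = m ∨ (bU m t).2 = -m := by
    unfold bU
    split_ifs with c1 c2
    · exact Or.inr (Or.inl rfl)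
    · exact Or.inr (Or.inr (Or.inl rfl))
    · exact Or.inl rfl
  have h3 : |(bU m t).1| ≤ m := abs_le.2 ⟨by omega, by omega⟩
  have h4 : |(bU m t).2| ≤ m := abs_le.2 ⟨by omega, by omega⟩
  apply le_antisymm (max_le h3 h4)
  have hm0 : (0 : ℤ) ≤ m := Nat.cast_nonneg _
  rcases h2 with h | h | h | h
  · exact le_max_of_le_left (by rw [h, abs_of_nonneg hm0])
  · exact le_max_of_le_left (by rw [h, abs_neg, abs_of_nonneg hm0])
  · exact le_max_of_le_right (by rw [h, abs_of_nonneg hm0])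
  · exact le_max_of_le_right (by rw [h, abs_neg, abs_of_nonneg hm0])

theorem bD_norm {m t : ℕ} (hm : 1 ≤ m) (ht : t ≤ 4 * m - 2) :
    max |(bD m t).1| |(bD m t).2| = m := by
  have h1 : -(m : ℤ) ≤ (bD m t).1 ∧ (bD m t).1 ≤ m ∧ -(m : ℤ) ≤ (bD m t).2 ∧ (bD m t).2 ≤ m := by
    unfold bD
    split_ifs <;> simp only <;> omega
  have h2 : (bD m t).1 = m ∨ (bD m t).1 = -m ∨ (bD m t).2 = m ∨ (bD m t).2 = -m := by
    unfold bD
    split_ifs with c1 c2
    · exact Or.inl rfl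
    · exact Or.inr (Or.inr (Or.inr rfl))
    · exact Or.inr (Or.inl rfl)
  have h3 : |(bD m t).1| ≤ m := abs_le.2 ⟨by omega, by omega⟩
  have h4 : |(bD m t).2| ≤ m := abs_le.2 ⟨by omega, by omega⟩
  apply le_antisymm (max_le h3 h4)
  have hm0 : (0 : ℤ) ≤ m := Nat.cast_nonneg _
  rcases h2 with h | h | h | h
  · exact le_max_of_le_left (by rw [h, abs_of_nonneg hm0])
  · exact le_max_of_le_left (by rw [h, abs_neg, abs_of_nonneg hm0])
  · exact le_max_of_le_right (by rw [h, abs_of_nonneg hm0])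
  · exact le_max_of_le_right (by rw [h, abs_neg, abs_of_nonneg hm0])

theorem RR_box {m L : ℕ} (hm : 1 ≤ m) {p : ℤ × ℤ} (hp : p ∈ RR m L) :
    ∃ b : ℤ × ℤ, max |b.1| |b.2| = m ∧ p ∈ Bx L (ctr L b) := by
  rcases hp with ⟨t, ht, h⟩ | ⟨t, ht, h⟩
  · exact ⟨bU m t, bU_norm hm ht, h⟩
  · exact ⟨bD m t, bD_norm hm ht, h⟩

theorem RR_disj {m m' L : ℕ} (hm : 1 ≤ m) (hm' : 1 ≤ m') (hne : m ≠ m') :
    Disjoint (RR m L) (RR m' L) := by
  rw [Set.disjoint_left]
  intro p h1 h2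
  obtain ⟨b, hb, hp⟩ := RR_box hm h1
  obtain ⟨b', hb', hp'⟩ := RR_box hm' h2
  have hbb : b ≠ b' := by
    rintro rfl
    rw [hb] at hb'
    exact hne (by exact_mod_cast hb')
  exact Set.disjoint_left.1 (disj hbb) hp hp'

theorem DU_DD (m L : ℕ) (hm : 1 ≤ m) : Disjoint (DU m L) (DD m L) := by
  rw [Set.disjoint_left]
  rintro p ⟨t, ht, h⟩ ⟨t', ht', h'⟩
  have h1 := bU_two hm ht
  have h2 := bD_two hm ht'
  have hbb : bU m t ≠ bD m t' := by
    intro h3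
    rw [h3] at h1
    omega
  exact Set.disjoint_left.1 (disj hbb) h h'

theorem RR_norm {m L : ℕ} (hm : 1 ≤ m) {p : ℤ × ℤ} (hp : p ∈ RR m L) :
    (2 * L + 1) * (m : ℤ) - L ≤ max |p.1| |p.2| ∧ max |p.1| |p.2| ≤ (2 * L + 1) * (m : ℤ) + L := by
  obtain ⟨b, hb, h1, h2⟩ := RR_box hm hp
  unfold ctr at h1 h2
  simp only at h1 h2
  have hL : (0 : ℤ) ≤ 2 * L + 1 := by positivity
  have e1 : |(2 * (L : ℤ) + 1) * b.1| = (2 * L + 1) * |b.1| := by rw [abs_mul, abs_of_nonneg hL]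
  have e2 : |(2 * (L : ℤ) + 1) * b.2| = (2 * L + 1) * |b.2| := by rw [abs_mul, abs_of_nonneg hL]
  have h3 : |p.1| ≤ |(2 * (L : ℤ) + 1) * b.1| + L := by
    have := abs_add_le (p.1 - (2 * L + 1) * b.1) ((2 * L + 1) * b.1)
    rw [sub_add_cancel] at this
    linarith
  have h4 : |p.2| ≤ |(2 * (L : ℤ) + 1) * b.2| + L := by
    have := abs_add_le (p.2 - (2 * L + 1) * b.2) ((2 * L + 1) * b.2)
    rw [sub_add_cancel] at this
    linarith
  have h5 : |(2 * (L : ℤ) + 1) * b.1| ≤ |p.1| + L := by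
    have := abs_sub_abs_le_abs_sub ((2 * (L : ℤ) + 1) * b.1) p.1
    rw [abs_sub_comm] at this
    linarith
  have h6 : |(2 * (L : ℤ) + 1) * b.2| ≤ |p.2| + L := by
    have := abs_sub_abs_le_abs_sub ((2 * (L : ℤ) + 1) * b.2) p.2
    rw [abs_sub_comm] at this
    linarith
  rw [e1] at h3 h5
  rw [e2] at h4 h6
  have hb1 : |b.1| ≤ m := by rw [← hb]; exact le_max_left _ _
  have hb2 : |b.2| ≤ m := by rw [← hb]; exact le_max_right _ _
  constructor
  · rcases max_choice |b.1| |b.2| with h | h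
    · rw [h] at hb
      rw [hb] at h5
      exact le_trans (by linarith) (le_max_left _ _)
    · rw [h] at hb
      rw [hb] at h6
      exact le_trans (by linarith) (le_max_right _ _)
  · apply max_le
    · have := mul_le_mul_of_nonneg_left hb1 hL
      linarith
    · have := mul_le_mul_of_nonneg_left hb2 hL
      linarith

theorem col {L : ℕ} (hL : 1 ≤ L) {p b : ℤ × ℤ} (h : p ∈ Bx L (ctr L b)) (hp : p.1 = 0 ∨ p.1 = 1) :
    b.1 = 0 := by
  obtain ⟨h1, -⟩ := h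
  unfold ctr at h1
  simp only at h1
  rw [abs_le] at h1
  have hL' : (1 : ℤ) ≤ L := by exact_mod_cast hL
  by_contra hne
  rcases lt_or_gt_of_ne hne with h2 | h2
  · have h3 : b.1 ≤ -1 := by omega
    have h4 : (2 * (L : ℤ) + 1) * b.1 ≤ (2 * L + 1) * (-1) :=
      mul_le_mul_of_nonneg_left h3 (by positivity)
    omega
  · have h3 : 1 ≤ b.1 := by omega
    have h4 : (2 * (L : ℤ) + 1) * 1 ≤ (2 * L + 1) * b.1 :=
      mul_le_mul_of_nonneg_left h3 (by positivity)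
    omega

theorem DU_col {m L : ℕ} (hm : 1 ≤ m) (hL : 1 ≤ L) {p : ℤ × ℤ} (hp : p ∈ DU m L)
    (h : p.1 = 0 ∨ p.1 = 1) : 0 < p.2 := by
  obtain ⟨t, ht, hb⟩ := hp
  have h1 := col hL hb h
  have h2 : (bU m t).2 = m := by
    unfold bU at h1 ⊢
    split_ifs at h1 ⊢ <;> simp only at h1 ⊢ <;> omega
  obtain ⟨-, h3⟩ := hb
  unfold ctr at h3
  simp only at h3
  rw [h2, abs_le] at h3
  have hL' : (1 : ℤ) ≤ L := by exact_mod_cast hL
  have hm' : (1 : ℤ) ≤ m := by exact_mod_cast hm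
  have h4 : (2 * (L : ℤ) + 1) * 1 ≤ (2 * L + 1) * m := mul_le_mul_of_nonneg_left hm' (by positivity)
  omega

theorem DD_col {m L : ℕ} (hm : 1 ≤ m) (hL : 1 ≤ L) {p : ℤ × ℤ} (hp : p ∈ DD m L)
    (h : p.1 = 0 ∨ p.1 = 1) : p.2 ≤ 0 := by
  obtain ⟨t, ht, hb⟩ := hp
  have h1 := col hL hb h
  have h2 : (bD m t).2 = -m := by
    unfold bD at h1 ⊢
    split_ifs at h1 ⊢ <;> simp only at h1 ⊢ <;> omega
  obtain ⟨-, h3⟩ := hb
  unfold ctr at h3
  simp only at h3
  rw [h2, abs_le] at h3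
  have hL' : (1 : ℤ) ≤ L := by exact_mod_cast hL
  have hm' : (1 : ℤ) ≤ m := by exact_mod_cast hm
  have h4 : (2 * (L : ℤ) + 1) * 1 ≤ (2 * L + 1) * m := mul_le_mul_of_nonneg_left hm' (by positivity)
  have h5 : (2 * (L : ℤ) + 1) * -(m : ℤ) = -((2 * L + 1) * m) := by ring
  rw [h5] at h3
  omega

/-- loops in bounded sets are finite in number -/
theorem Sur_finite {n : ℕ} [NeZero n] {A : Set (ℤ × ℤ)} (hA : A.Finite) : (Sur n A).Finite := by
  have h1 : (Set.pi Set.univ (fun _ : ZMod n => A)).Finite := Set.Finite.pi (fun _ => hA)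
  apply h1.subset
  intro f hf i _
  exact hf.2.2.1 i

theorem even_len {D : Set (ℤ × ℤ)} {a b : ℤ × ℤ} {j : ℕ} {l : List (ℤ × ℤ)} (h : l ∈ TJ D a b j)
    (hab : Adj b a) : Even (j + 1) := by
  have key : ∀ k ≤ j, Even ((l.getD k (0, 0)).1 + (l.getD k (0, 0)).2 - (a.1 + a.2) + k) := by
    intro k
    induction k with
    | zero =>
      intro _
      rw [getD_zero h]
      simp
    | succ k ih =>
      intro hk
      have h1 := ih (by omega)
      have h2 := adj_getD h (show k < j by omega)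
      unfold Adj at h2
      obtain ⟨u, hu⟩ := h1
      rcases abs_cases ((l.getD k (0, 0)).1 - (l.getD (k + 1) (0, 0)).1) with ⟨h3, _⟩ | ⟨h3, _⟩ <;>
      rcases abs_cases ((l.getD k (0, 0)).2 - (l.getD (k + 1) (0, 0)).2) with ⟨h4, _⟩ | ⟨h4, _⟩ <;>
      rw [Int.even_iff] <;> push_cast <;> omega
  obtain ⟨u, hu⟩ := key j le_rfl
  rw [getD_last h] at hu
  unfold Adj at hab
  have : Even ((j : ℤ) + 1) := by
    rcases abs_cases (b.1 - a.1) with ⟨h3, _⟩ | ⟨h3, _⟩ <;>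
    rcases abs_cases (b.2 - a.2) with ⟨h4, _⟩ | ⟨h4, _⟩ <;>
    rw [Int.even_iff] <;> omega
  exact_mod_cast this

/-- **The weight of the loops in one ring.** -/
theorem ring_ge {m L : ℕ} (hm : 1 ≤ m) (hL : 1 ≤ L) {x w : ℝ} (hx : 0 < x) (hw : 0 < w)
    (hP : HP L 0 x w) : ∃ h : ℕ, 2 ≤ h ∧ w ^ (8 * m) * x ^ (8 * m) ≤
      ((Sur (2 * h) (RR m L)).ncard : ℝ) * x ^ (2 * h) := by
  obtain ⟨j₁, -, -, h3⟩ := chain_boxes hx.le hw.le hP (bU_inj hm) (bU_dir hm)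
    (show IsU (0, -1) by unfold IsU; simp) (by rw [bU_dir_zero hm]; intro h; simp at h) (4 * m)
  obtain ⟨j₂, -, -, k3⟩ := chain_boxes hx.le hw.le hP (bD_inj hm) (bD_dir hm)
    (show IsU (0, 1) by unfold IsU; simp) (fun h => bD_dir_zero hm h.symm) (4 * m - 2)
  rw [bU_dir_last hm, bU_last hm, bU_zero] at h3
  rw [bD_dir_last hm, bD_last hm, bD_zero hm] at k3
  have hDD := DU_DD m L hm
  have h12 : Adj (side L (ctr L ((m : ℤ), 0)) (0, -1)) (side L (ctr L ((m : ℤ), -1)) (0, 1)) := by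
    unfold Adj side ctr
    simp only
    have e : (2 * (L : ℤ) + 1) * 0 + L * -1 - ((2 * L + 1) * -1 + L * 1) = 1 := by ring
    rw [e]
    simp
  have h21 : Adj (side L (ctr L (-(m : ℤ), -1)) (0, 1)) (side L (ctr L (-(m : ℤ), 0)) (0, -1)) := by
    unfold Adj side ctr
    simp only
    have e : (2 * (L : ℤ) + 1) * -1 + L * 1 - ((2 * L + 1) * 0 + L * -1) = -1 := by ring
    rw [e]
    simp
  have hne : 0 < nJ (DU m L) (side L (ctr L (-(m : ℤ), 0)) (0, -1))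
      (side L (ctr L ((m : ℤ), 0)) (0, -1)) j₁ := by
    by_contra hcon
    have h0 : nJ (DU m L) (side L (ctr L (-(m : ℤ), 0)) (0, -1))
      (side L (ctr L ((m : ℤ), 0)) (0, -1)) j₁ = 0 := by omega
    unfold DU at h0
    rw [h0, Nat.cast_zero, zero_mul] at h3
    have : 0 < w ^ (4 * m + 1) * x ^ (4 * m) := by positivity
    linarith
  have hne' : 0 < nJ (DD m L) (side L (ctr L ((m : ℤ), -1)) (0, 1))
      (side L (ctr L (-(m : ℤ), -1)) (0, 1)) j₂ := by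
    by_contra hcon
    have h0 : nJ (DD m L) (side L (ctr L ((m : ℤ), -1)) (0, 1))
      (side L (ctr L (-(m : ℤ), -1)) (0, 1)) j₂ = 0 := by omega
    unfold DD at h0
    rw [h0, Nat.cast_zero, zero_mul] at k3
    have : 0 < w ^ (4 * m - 2 + 1) * x ^ (4 * m - 2) := by positivity
    linarith
  obtain ⟨l₁, hl₁⟩ := (Set.ncard_pos (TJ_finite _ _ _ _)).1 hne
  obtain ⟨l₂, hl₂⟩ := (Set.ncard_pos (TJ_finite _ _ _ _)).1 hne'
  have hev := even_len (cat_mem hDD h12 hl₁ hl₂) h21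
  obtain ⟨h, hh⟩ := hev
  have hfin : (Sur (j₁ + j₂ + 1 + 1) (RR m L)).Finite := by
    apply Sur_finite
    have hb : ((Set.Icc (-((2 * L + 1) * (m : ℤ) + L)) ((2 * L + 1) * (m : ℤ) + L)) ×ˢ
      (Set.Icc (-((2 * L + 1) * (m : ℤ) + L)) ((2 * L + 1) * (m : ℤ) + L))).Finite :=
      (Set.finite_Icc _ _).prod (Set.finite_Icc _ _)
    apply hb.subset
    intro p hp
    have h5 := (RR_norm hm hp).2
    rw [max_le_iff, abs_le, abs_le] at h5
    exact ⟨h5.1, h5.2⟩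
  have hm' : (1 : ℤ) ≤ m := by exact_mod_cast hm
  have h5 := loops_ge (A := RR m L) hDD h12 h21 rfl (by
      unfold side ctr
      simp only
      have : 0 ≤ (2 * (L : ℤ) + 1) * m := by positivity
      have e : (2 * (L : ℤ) + 1) * -(m : ℤ) + L * 0 = -((2 * L + 1) * m) := by ring
      rw [e]
      linarith) (by
      unfold side ctr
      simp only
      have : (2 * (L : ℤ) + 1) * 1 ≤ (2 * L + 1) * m :=
        mul_le_mul_of_nonneg_left hm' (by positivity)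
      have hL0 : (0 : ℤ) ≤ L := Nat.cast_nonneg _
      linarith) (fun p hp => DU_col hm hL hp) (fun p hp => DD_col hm hL hp) (le_refl _) hfin
    (j₁ := j₁) (j₂ := j₂)
  have hlen : j₁ + j₂ + 1 + 1 = 2 * h := by omega
  have hj1 : 1 ≤ j₁ := by
    by_contra hcon
    have h0 : j₁ = 0 := by omega
    subst h0
    have e1 := getD_zero hl₁
    have e2 := getD_last hl₁
    rw [e1] at e2
    have e3 := congrArg Prod.fst e2
    unfold side ctr at e3
    simp only at e3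
    have : (2 * (L : ℤ) + 1) * 1 ≤ (2 * L + 1) * m :=
      mul_le_mul_of_nonneg_left hm' (by positivity)
    have e : (2 * (L : ℤ) + 1) * -(m : ℤ) + L * 0 = -((2 * L + 1) * m) := by ring
    rw [e] at e3
    have hL0 : (0 : ℤ) ≤ L := Nat.cast_nonneg _
    linarith
  refine ⟨h, by omega, ?_⟩
  have h6 : ((nJ (DU m L) (side L (ctr L (-(m : ℤ), 0)) (0, -1))
      (side L (ctr L ((m : ℤ), 0)) (0, -1)) j₁ : ℝ) * nJ (DD m L) (side L (ctr L ((m : ℤ), -1)) (0, 1))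
      (side L (ctr L (-(m : ℤ), -1)) (0, 1)) j₂) ≤ ((Sur (2 * h) (RR m L)).ncard : ℝ) := by
    rw [← hlen]
    exact_mod_cast h5
  have e8 : w ^ (8 * m) * x ^ (8 * m) =
      x ^ 2 * ((w ^ (4 * m + 1) * x ^ (4 * m)) * (w ^ (4 * m - 2 + 1) * x ^ (4 * m - 2))) := by
    have e1 : 8 * m = (4 * m + 1) + (4 * m - 2 + 1) := by omega
    have e2 : x ^ (8 * m) = x ^ 2 * (x ^ (4 * m) * x ^ (4 * m - 2)) := by
      rw [← pow_add, ← pow_add]
      congr 1
      omega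
    rw [e2]
    nth_rewrite 1 [e1]
    rw [pow_add]
    ring
  rw [e8]
  have e9 : x ^ (2 * h) = x ^ 2 * (x ^ j₁ * x ^ j₂) := by
    rw [← pow_add, ← pow_add]
    congr 1
    omega
  rw [e9]
  calc x ^ 2 * ((w ^ (4 * m + 1) * x ^ (4 * m)) * (w ^ (4 * m - 2 + 1) * x ^ (4 * m - 2)))
      ≤ x ^ 2 * ((nJ (DU m L) (side L (ctr L (-(m : ℤ), 0)) (0, -1))
      (side L (ctr L ((m : ℤ), 0)) (0, -1)) j₁ * x ^ j₁) *
      (nJ (DD m L) (side L (ctr L ((m : ℤ), -1)) (0, 1))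
      (side L (ctr L (-(m : ℤ), -1)) (0, 1)) j₂ * x ^ j₂)) := by
        apply mul_le_mul_of_nonneg_left _ (by positivity)
        exact mul_le_mul h3 k3 (by positivity) (by positivity)
    _ = ((nJ (DU m L) (side L (ctr L (-(m : ℤ), 0)) (0, -1))
      (side L (ctr L ((m : ℤ), 0)) (0, -1)) j₁ : ℝ) * nJ (DD m L) (side L (ctr L ((m : ℤ), -1)) (0, 1))
      (side L (ctr L (-(m : ℤ), -1)) (0, 1)) j₂) * (x ^ 2 * (x ^ j₁ * x ^ j₂)) := by ring
    _ ≤ _ := mul_le_mul_of_nonneg_right h6 (by positivity)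

end Pool.Agent.X144.An
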