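import Pool.Agent.X144.An.Low
import Pool.Agent.TH546.PC.Tail

/-!
# Loops in an annulus: upper bound
-/

set_option autoImplicit false

namespace Pool.Agent.X144.An

open Pool.Agent.X144.Cp
open Pool.Agent.Y981.L2 (Above Encl even_cross)
open Pool.Agent.W870.Pg (LF mem_LF MW Fp loops_eq)

theorem far_points {m r : ℕ} [NeZero m] {A : Set (ℤ × ℤ)} (hr : 1 ≤ r)
    (hA : ∀ p ∈ A, (r : ℤ) < max |p.1| |p.2|) {f : ZMod m → ℤ × ℤ} (hf : f ∈ Sur m A) :
    ∃ i j, 2 * (r : ℤ) ≤ (f i).2 - (f j).2 := by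
  classical
  obtain ⟨h1, h2, h3, h4⟩ := hf
  have hr' : (1 : ℤ) ≤ r := by exact_mod_cast hr
  have hcol : ∀ k, ((f k).1 = 0 ∨ (f k).1 = 1) → (r : ℤ) < |(f k).2| := by
    intro k hk
    have h5 := hA _ (h3 k)
    rcases lt_max_iff.1 h5 with h6 | h6
    · exfalso
      rcases hk with hk | hk <;> rw [hk] at h6 <;> simp at h6 <;> omega
    · exact h6
  have hup : ∃ k, Above m f 0 0 k := by
    by_contra hcon
    push Not at hcon
    have : IsEmpty {k : ZMod m // Above m f 0 0 k} := ⟨fun k => hcon k.1 k.2⟩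
    unfold Encl at h4
    rw [Nat.card_of_isEmpty] at h4
    exact absurd h4 (by decide)
  have hdown : ∃ k, (((f k).1 = 0 ∧ (f (k + 1)).1 = 0 + 1) ∨
      ((f k).1 = 0 + 1 ∧ (f (k + 1)).1 = 0)) ∧ (f k).2 ≤ 0 := by
    by_contra hcon
    push Not at hcon
    have h5 : Nat.card {k : ZMod m // Above m f 0 0 k} =
        Nat.card {k : ZMod m // (((f k).1 = 0 ∧ (f (k + 1)).1 = 0 + 1) ∨
        ((f k).1 = 0 + 1 ∧ (f (k + 1)).1 = 0))} := by
      apply Nat.card_congr
      apply Equiv.subtypeEquivRight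
      intro k
      unfold Above
      constructor
      · rintro ⟨h, _⟩
        exact h
      · intro h
        exact ⟨h, hcon k h⟩
    unfold Encl at h4
    rw [h5] at h4
    exact (Nat.not_odd_iff_even.2 (even_cross f h2 0)) h4
  obtain ⟨i, hi1, hi2⟩ := hup
  obtain ⟨j, hj1, hj2⟩ := hdown
  refine ⟨i, j, ?_⟩
  have h5 := hcol i (by rcases hi1 with ⟨h, -⟩ | ⟨h, -⟩ <;> omega)
  have h6 := hcol j (by rcases hj1 with ⟨h, -⟩ | ⟨h, -⟩ <;> omega)
  rw [abs_of_pos hi2] at h5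
  rw [abs_of_nonpos hj2] at h6
  omega

theorem le_width {m : ℕ} [NeZero m] (g : ZMod m → ℤ × ℤ) (i j : ZMod m) :
    ((g i).1 - (g j).1).natAbs ≤ Pool.Agent.H924P.width m g := by
  classical
  unfold Pool.Agent.H924P.width
  apply le_csSup
  · have : {w : ℕ | ∃ i j, w = ((g i).1 - (g j).1).natAbs} =
        Set.range (fun p : ZMod m × ZMod m => ((g p.1).1 - (g p.2).1).natAbs) := by
      ext w
      simp only [Set.mem_ofPred_eq, Set.mem_range, Prod.exists]
      constructor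
      · rintro ⟨i, j, h⟩
        exact ⟨i, j, h.symm⟩
      · rintro ⟨i, j, h⟩
        exact ⟨i, j, h.symm⟩
    rw [this]
    exact (Set.finite_range _).bddAbove
  · exact ⟨i, j, rfl⟩

/-- the number of the loops around the origin in terms of the mean width -/
theorem Sur_le {n r R : ℕ} (hn : 2 ≤ n) (hr : 1 ≤ r) :
    ((Sur (2 * n) (Ann r R)).ncard : ℝ) ≤
      (2 * R + 1) ^ 2 / (2 * r) * (MW n * (4 * n * H981.PP n)) := by
  classical
  have hne : NeZero (2 * n) := ⟨by omega⟩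
  have hr' : (1 : ℝ) ≤ r := by exact_mod_cast hr
  have h1 : (Sur (2 * n) (Ann r R)).ncard ≤
      (((Finset.Icc (-(R : ℤ)) R) ×ˢ (Finset.Icc (-(R : ℤ)) R)) ×ˢ
        ((LF (2 * n)).filter (fun g => 2 * r ≤ Pool.Agent.H924P.width (2 * n) g))).card := by
    rw [← Set.ncard_coe_finset]
    apply Set.ncard_le_ncard_of_injOn (fun f : ZMod (2 * n) → ℤ × ℤ =>
      ((f 0, fun i => ((f i).2 - (f 0).2, (f i).1 - (f 0).1)) :
        (ℤ × ℤ) × (ZMod (2 * n) → ℤ × ℤ))) _ _ (Finset.finite_toSet _)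
    · intro f hf
      obtain ⟨i, j, hij⟩ := far_points hr (fun p hp => hp.1) hf
      obtain ⟨k1, k2, k3, k4⟩ := hf
      rw [Finset.mem_coe, Finset.mem_product]
      constructor
      · have h5 := (k3 0).2
        rw [max_le_iff, abs_le, abs_le] at h5
        rw [Finset.mem_product, Finset.mem_Icc, Finset.mem_Icc]
        exact ⟨h5.1, h5.2⟩
      · rw [Finset.mem_filter, mem_LF]
        refine ⟨⟨?_, ?_, ?_⟩, ?_⟩
        · simp only [sub_self]
          rfl
        · intro s t hst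
          simp only [Prod.mk.injEq, sub_left_inj] at hst
          exact k1 (Prod.ext hst.2 hst.1)
        · intro s
          have := k2 s
          simp only [sub_sub_sub_cancel_right]
          omega
        · refine le_trans ?_ (le_width _ i j)
          simp only [sub_sub_sub_cancel_right]
          omega
    · intro f hf f' hf' h
      simp only [Prod.mk.injEq] at h
      obtain ⟨e1, e2⟩ := h
      funext i
      have e3 := congrFun e2 i
      simp only [Prod.mk.injEq] at e3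
      rw [e1] at e3
      exact Prod.ext (sub_left_inj.1 e3.2) (sub_left_inj.1 e3.1)
  have h2 : ((((Finset.Icc (-(R : ℤ)) R) ×ˢ (Finset.Icc (-(R : ℤ)) R)) ×ˢ
        ((LF (2 * n)).filter (fun g => 2 * r ≤ Pool.Agent.H924P.width (2 * n) g))).card : ℝ) =
      (2 * R + 1) ^ 2 *
        (((LF (2 * n)).filter (fun g => 2 * r ≤ Pool.Agent.H924P.width (2 * n) g)).card : ℝ) := by
    rw [Finset.card_product, Finset.card_product, Int.card_Icc]
    have e : ((R : ℤ) + 1 - -(R : ℤ)).toNat = 2 * R + 1 := by omega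
    rw [e]
    push_cast
    ring
  have h3 : (2 * (r : ℝ)) *
      (((LF (2 * n)).filter (fun g => 2 * r ≤ Pool.Agent.H924P.width (2 * n) g)).card : ℝ) ≤
      ∑ g ∈ LF (2 * n), (Pool.Agent.H924P.width (2 * n) g : ℝ) := by
    calc (2 * (r : ℝ)) *
        (((LF (2 * n)).filter (fun g => 2 * r ≤ Pool.Agent.H924P.width (2 * n) g)).card : ℝ)
        = ∑ _g ∈ (LF (2 * n)).filter (fun g => 2 * r ≤ Pool.Agent.H924P.width (2 * n) g),
          (2 * (r : ℝ)) := by rw [Finset.sum_const, nsmul_eq_mul, mul_comm]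
      _ ≤ ∑ g ∈ (LF (2 * n)).filter (fun g => 2 * r ≤ Pool.Agent.H924P.width (2 * n) g),
          (Pool.Agent.H924P.width (2 * n) g : ℝ) := by
          apply Finset.sum_le_sum
          intro g hg
          rw [Finset.mem_filter] at hg
          exact_mod_cast hg.2
      _ ≤ _ := Finset.sum_le_sum_of_subset_of_nonneg (Finset.filter_subset _ _)
          (fun _ _ _ => Nat.cast_nonneg _)
  have hP := Pool.Agent.W870.Pg.PP_pos hn
  have hcard : ((LF (2 * n)).card : ℝ) = 4 * n * H981.PP n := loops_eq (by omega)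
  have hn' : (2 : ℝ) ≤ n := by exact_mod_cast hn
  have h4 : ∑ g ∈ LF (2 * n), (Pool.Agent.H924P.width (2 * n) g : ℝ) =
      MW n * (4 * n * H981.PP n) := by
    unfold MW
    rw [hcard, div_mul_cancel₀ _ (by positivity)]
  rw [h4] at h3
  have h5 : ((Sur (2 * n) (Ann r R)).ncard : ℝ) ≤ (2 * R + 1) ^ 2 *
        (((LF (2 * n)).filter (fun g => 2 * r ≤ Pool.Agent.H924P.width (2 * n) g)).card : ℝ) := by
    rw [← h2]
    exact_mod_cast h1
  refine h5.trans ?_
  rw [div_mul_eq_mul_div, le_div_iff₀ (by linarith)]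
  calc (2 * (R : ℝ) + 1) ^ 2 *
        (((LF (2 * n)).filter (fun g => 2 * r ≤ Pool.Agent.H924P.width (2 * n) g)).card : ℝ) *
        (2 * r) = (2 * (R : ℝ) + 1) ^ 2 * ((2 * (r : ℝ)) *
        (((LF (2 * n)).filter (fun g => 2 * r ≤ Pool.Agent.H924P.width (2 * n) g)).card : ℝ)) := by
        ring
    _ ≤ _ := mul_le_mul_of_nonneg_left h3 (by positivity)

/-- **Upper bound for one loop** -/
theorem upper_one : ∃ K : ℝ, 0 < K ∧ ∀ r R : ℕ, 1 ≤ r → r < R →
    ∑ n ∈ Finset.Icc 2 ((2 * R + 1) ^ 2),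
      ((Sur (2 * n) (Ann r R)).ncard : ℝ) / (4 * (n : ℝ) * H981.mu ^ (2 * n)) ≤
      K * ((R : ℝ) ^ 2 / r) * Real.log R := by
  obtain ⟨K, hK, hsum⟩ := Pool.Agent.TH546.PC.log_sum
  have hmu := H981.mu_pos
  refine ⟨27 * K + 1, by positivity, ?_⟩
  intro r R hr hR
  have hr' : (1 : ℝ) ≤ r := by exact_mod_cast hr
  have hR2 : 2 ≤ R := by omega
  have hR' : (2 : ℝ) ≤ R := by exact_mod_cast hR2
  have h1 : ∀ n ∈ Finset.Icc 2 ((2 * R + 1) ^ 2),
      ((Sur (2 * n) (Ann r R)).ncard : ℝ) / (4 * (n : ℝ) * H981.mu ^ (2 * n)) ≤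
      (2 * R + 1) ^ 2 / (2 * r) * (MW n * Fp n) := by
    intro n hn
    have hn2 := (Finset.mem_Icc.1 hn).1
    have hn' : (2 : ℝ) ≤ n := by exact_mod_cast hn2
    have h2 := Sur_le (R := R) hn2 hr
    rw [div_le_iff₀ (by positivity)]
    refine h2.trans (le_of_eq ?_)
    unfold Pool.Agent.W870.Pg.Fp
    have : (H981.mu) ^ (2 * n) ≠ 0 := by positivity
    field_simp
  refine (Finset.sum_le_sum h1).trans ?_
  rw [← Finset.mul_sum]
  have h3 := hsum ((2 * R + 1) ^ 2) (by nlinarith)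
  have h4 : Real.log (((2 * R + 1) ^ 2 : ℕ) : ℝ) ≤ 6 * Real.log R := by
    have h5 : (((2 * R + 1) ^ 2 : ℕ) : ℝ) ≤ (R : ℝ) ^ 6 := by
      push_cast
      have e : (R : ℝ) ^ 6 = ((R : ℝ) ^ 3) ^ 2 := by ring
      rw [e]
      apply pow_le_pow_left₀ (by positivity)
      nlinarith [mul_nonneg (show (0 : ℝ) ≤ R by linarith) (show (0 : ℝ) ≤ (R : ℝ) - 2 by linarith),
        mul_nonneg (mul_nonneg (show (0 : ℝ) ≤ R by linarith) (show (0 : ℝ) ≤ R by linarith))
          (show (0 : ℝ) ≤ (R : ℝ) - 2 by linarith)]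
    have h6 := Real.log_le_log (by positivity) h5
    have h7 : Real.log ((R : ℝ) ^ 6) = 6 * Real.log R := by
      rw [Real.log_pow]
      norm_num
    rw [h7] at h6
    exact h6
  have hlR : 0 < Real.log (R : ℝ) := Real.log_pos (by linarith)
  have h8 : (2 * (R : ℝ) + 1) ^ 2 / (2 * r) ≤ 9 / 2 * ((R : ℝ) ^ 2 / r) := by
    rw [div_le_iff₀ (by linarith)]
    have : 9 / 2 * ((R : ℝ) ^ 2 / r) * (2 * r) = 9 * (R : ℝ) ^ 2 := by
      field_simp
    rw [this]
    nlinarith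
  calc (2 * (R : ℝ) + 1) ^ 2 / (2 * r) * ∑ n ∈ Finset.Icc 2 ((2 * R + 1) ^ 2), MW n * Fp n
      ≤ (2 * (R : ℝ) + 1) ^ 2 / (2 * r) * (K * (6 * Real.log R)) := by
        apply mul_le_mul_of_nonneg_left _ (by positivity)
        exact h3.trans (mul_le_mul_of_nonneg_left h4 hK)
    _ ≤ 9 / 2 * ((R : ℝ) ^ 2 / r) * (K * (6 * Real.log R)) :=
        mul_le_mul_of_nonneg_right h8 (by positivity)
    _ = 27 * K * ((R : ℝ) ^ 2 / r) * Real.log R := by ring
    _ ≤ _ := by
        have : 0 ≤ ((R : ℝ) ^ 2 / r) * Real.log R := by positivity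
        nlinarith

/-- **Upper bound** -/
theorem upper_ann : ∃ K : ℝ, 0 < K ∧ ∀ k r R : ℕ, 1 ≤ r → r < R →
    Zk H981.mu k r R ≤ (K * ((R : ℝ) ^ 2 / r) * Real.log R) ^ k := by
  classical
  obtain ⟨K, hK, h⟩ := upper_one
  have hmu := H981.mu_pos
  refine ⟨K, hK, ?_⟩
  intro k r R hr hR
  have h1 := h r R hr hR
  have h0 : 0 ≤ ∑ n ∈ Finset.Icc 2 ((2 * R + 1) ^ 2),
      ((Sur (2 * n) (Ann r R)).ncard : ℝ) / (4 * (n : ℝ) * H981.mu ^ (2 * n)) :=
    Finset.sum_nonneg (fun n _ => by positivity)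
  have h2 := pow_le_pow_left₀ h0 h1 k
  refine le_trans ?_ h2
  have h3 : (∑ n ∈ Finset.Icc 2 ((2 * R + 1) ^ 2),
      ((Sur (2 * n) (Ann r R)).ncard : ℝ) / (4 * (n : ℝ) * H981.mu ^ (2 * n))) ^ k =
      ∏ _i : Fin k, ∑ n ∈ Finset.Icc 2 ((2 * R + 1) ^ 2),
      ((Sur (2 * n) (Ann r R)).ncard : ℝ) / (4 * (n : ℝ) * H981.mu ^ (2 * n)) := by
    rw [Finset.prod_const, Finset.card_univ, Fintype.card_fin]
  rw [h3, Finset.prod_univ_sum]
  unfold Zk
  apply Finset.sum_le_sum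
  intro n hn
  rw [Fintype.mem_piFinset] at hn
  have hn2 : ∀ i, 2 ≤ n i := fun i => (Finset.mem_Icc.1 (hn i)).1
  rw [Finset.prod_div_distrib]
  apply div_le_div_of_nonneg_right _ (Finset.prod_nonneg (fun i _ => by positivity))
  have hne : ∀ i, NeZero (2 * n i) := fun i => ⟨by have := hn2 i; omega⟩
  have hfin : ∀ i, Finite (Sur (2 * n i) (Ann r R)) :=
    fun i => (Sur_finite (Ann_finite r R)).to_subtype
  have hcard : (Tup k n (Ann r R)).ncard ≤ ∏ i, (Sur (2 * n i) (Ann r R)).ncard := by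
    have e1 : ∀ i, (Sur (2 * n i) (Ann r R)).ncard = Nat.card (Sur (2 * n i) (Ann r R)) :=
      fun i => (Nat.card_coe_set_eq _).symm
    rw [Finset.prod_congr rfl (fun i _ => e1 i), ← Nat.card_pi, ← Nat.card_coe_set_eq]
    have hf : Finite ((i : Fin k) → Sur (2 * n i) (Ann r R)) := Pi.finite
    refine Nat.card_le_card_of_injective (fun F : Tup k n (Ann r R) =>
      (fun i => (⟨F.1 i, F.2.1 i⟩ : Sur (2 * n i) (Ann r R)))) ?_
    intro F F' hF
    apply Subtype.ext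
    funext i
    exact congrArg Subtype.val (congrFun hF i)
  exact_mod_cast hcard

end Pool.Agent.X144.An
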